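import Pool.Agent.R560.ASP.Plane

/-!
# Thirteen vectors do not have seven disjoint recovery sets for each of them
-/

set_option autoImplicit false

namespace Pool.Agent.R560.ASP

open Finset

/-- the system of inequalities for the weights -/
def Feas (x0 : ℕ) (y : Fin 4 → Fin 3 → ℕ) : Prop :=
  ∃ (nA T : ℕ) (nB c : Fin 4 → ℕ), nA ≤ x0 ∧ (∀ k, 2 * nB k + c k ≤ y k 0 + y k 1 + y k 2) ∧
    (∀ k, nB k ≤ y k 0 + y k 1 ∧ nB k ≤ y k 0 + y k 2 ∧ nB k ≤ y k 1 + y k 2) ∧
    (∀ k, c k ≤ T) ∧ 3 * T ≤ ∑ k, c k ∧ nA + ∑ k, nB k + T = 7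

theorem card_filter_le {ι : Type*} [Fintype ι] [DecidableEq ι] (R : Fin 7 → Finset ι)
    (hR : ∀ i j, i ≠ j → Disjoint (R i) (R j)) (f : ι → Fin 13) (q : Fin 13) :
    ∑ i, ((R i).filter (fun j => f j = q)).card ≤ (Finset.univ.filter (fun j => f j = q)).card := by
  rw [← Finset.card_biUnion]
  · apply Finset.card_le_card
    intro j hj
    rw [Finset.mem_biUnion] at hj
    obtain ⟨i, _, hj⟩ := hj
    exact Finset.mem_filter.mpr ⟨Finset.mem_univ _, (Finset.mem_filter.mp hj).2⟩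
  · intro i _ j _ hij
    exact Finset.disjoint_filter_filter (hR i j hij)

theorem aux (u : Fin 3 → ℕ) (a b : Fin 3) (hab : a ≠ b) (ha : 1 ≤ u a) (hb : 1 ≤ u b) :
    2 ≤ u 0 + u 1 + u 2 ∧ 1 ≤ u 0 + u 1 ∧ 1 ≤ u 0 + u 2 ∧ 1 ≤ u 1 + u 2 := by
  have ha3 : a = 0 ∨ a = 1 ∨ a = 2 := by fin_cases a <;> simp
  have hb3 : b = 0 ∨ b = 1 ∨ b = 2 := by fin_cases b <;> simp
  rcases ha3 with rfl | rfl | rfl <;> rcases hb3 with rfl | rfl | rfl
  · exact absurd rfl hab
  · omega
  · omega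
  · omega
  · exact absurd rfl hab
  · omega
  · omega
  · omega
  · exact absurd rfl hab

theorem feas_of {ι : Type*} [Fintype ι] [DecidableEq ι] (f : ι → Fin 13) (p : Fin 13)
    (R : Fin 7 → Finset ι) (hR : ∀ i j, i ≠ j → Disjoint (R i) (R j))
    (hrec : ∀ i, (∃ j ∈ R i, f j = p) ∨
      ∀ t : Fin 13, inc t p = false → ∃ j ∈ R i, inc t (f j) = false) :
    Feas ((Finset.univ.filter (fun j => f j = p)).card)
      (fun k a => (Finset.univ.filter (fun j => f j = p + off k a)).card) := by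
  classical
  -- classification
  have hcl : ∀ i, (∃ j ∈ R i, f j = p) ∨
      (∃ (k : Fin 4) (a b : Fin 3), a ≠ b ∧ (∃ j ∈ R i, f j = p + off k a) ∧
        (∃ j ∈ R i, f j = p + off k b)) ∨
      (∃ S : Finset (Fin 4), 3 ≤ S.card ∧ ∀ k ∈ S, ∃ a, ∃ j ∈ R i, f j = p + off k a) := by
    intro i
    by_cases hA : ∃ j ∈ R i, f j = p
    · exact Or.inl hA
    right
    have hrec' := (hrec i).resolve_left hA
    have hp : p ∉ (R i).image f := by
      intro h
      obtain ⟨j, hj, hj2⟩ := Finset.mem_image.mp h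
      exact hA ⟨j, hj, hj2⟩
    have hmem : ∀ q, q ∈ (R i).image f → ∃ j ∈ R i, f j = q := fun q hq => Finset.mem_image.mp hq
    rcases classify p ((R i).image f) hp (fun t ht => by
      obtain ⟨j, hj, hj2⟩ := hrec' t ht
      exact ⟨f j, Finset.mem_image_of_mem f hj, hj2⟩) with h | h
    · left
      obtain ⟨k, a, b, hab, h1, h2⟩ := h
      exact ⟨k, a, b, hab, hmem _ h1, hmem _ h2⟩
    · right
      obtain ⟨S, hS, h1⟩ := h
      refine ⟨S, hS, fun k hk => ?_⟩
      obtain ⟨a, ha⟩ := h1 k hk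
      exact ⟨a, hmem _ ha⟩
  -- numbers
  let h : Fin 7 → Fin 13 → ℕ := fun i q => ((R i).filter (fun j => f j = q)).card
  have hpos : ∀ i q, (∃ j ∈ R i, f j = q) → 1 ≤ h i q := by
    rintro i q ⟨j, hj, hj2⟩
    exact Finset.card_pos.mpr ⟨j, Finset.mem_filter.mpr ⟨hj, hj2⟩⟩
  have hsum : ∀ q, ∑ i, h i q ≤ (Finset.univ.filter (fun j => f j = q)).card :=
    fun q => card_filter_le R hR f q
  -- the types
  have hty : ∀ i, ∃ (A C : ℕ) (B : Fin 4 → ℕ) (c : Fin 4 → ℕ), A + ∑ k, B k + C = 1 ∧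
      A ≤ h i p ∧ (∀ k, 2 * B k + c k ≤ h i (p + off k 0) + h i (p + off k 1) + h i (p + off k 2)) ∧
      (∀ k, B k ≤ h i (p + off k 0) + h i (p + off k 1) ∧
        B k ≤ h i (p + off k 0) + h i (p + off k 2) ∧
        B k ≤ h i (p + off k 1) + h i (p + off k 2)) ∧ (∀ k, c k ≤ C) ∧ 3 * C ≤ ∑ k, c k := by
    intro i
    rcases hcl i with h1 | h1 | h1
    · refine ⟨1, 0, fun _ => 0, fun _ => 0, by simp, hpos i p h1, fun k => by simp,
        fun k => by simp, fun k => le_rfl, by simp⟩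
    · obtain ⟨k, a, b, hab, h2, h3⟩ := h1
      have h2' := hpos i _ h2
      have h3' := hpos i _ h3
      have hgen : ∀ k' : Fin 4, k' = k → (2 ≤ h i (p + off k' 0) + h i (p + off k' 1) +
          h i (p + off k' 2)) ∧ (1 ≤ h i (p + off k' 0) + h i (p + off k' 1) ∧
        1 ≤ h i (p + off k' 0) + h i (p + off k' 2) ∧
        1 ≤ h i (p + off k' 1) + h i (p + off k' 2)) := by
        rintro k' rfl
        exact aux (fun a => h i (p + off k' a)) a b hab h2' h3'
      refine ⟨0, 0, fun k' => if k' = k then 1 else 0, fun _ => 0, by simp, Nat.zero_le _,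
        fun k' => ?_, fun k' => ?_, fun k => le_rfl, by simp⟩
      · beta_reduce
        split_ifs with hk
        · exact (hgen k' hk).1
        · exact Nat.zero_le _
      · beta_reduce
        split_ifs with hk
        · exact (hgen k' hk).2
        · exact ⟨Nat.zero_le _, Nat.zero_le _, Nat.zero_le _⟩
    · obtain ⟨S, hS, h2⟩ := h1
      refine ⟨0, 1, fun _ => 0, fun k => if k ∈ S then 1 else 0, by simp, Nat.zero_le _,
        fun k => ?_, fun k => by simp, fun k => ?_, ?_⟩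
      · beta_reduce
        split_ifs with hk
        · obtain ⟨a, ha⟩ := h2 k hk
          have h3 := hpos i _ ha
          have h4 : h i (p + off k a) ≤ h i (p + off k 0) + h i (p + off k 1) +
              h i (p + off k 2) := by
            have ha3 : a = 0 ∨ a = 1 ∨ a = 2 := by fin_cases a <;> simp
            rcases ha3 with rfl | rfl | rfl
            · exact le_trans (Nat.le_add_right _ _) (Nat.le_add_right _ _)
            · exact le_trans (Nat.le_add_left _ _) (Nat.le_add_right _ _)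
            · exact Nat.le_add_left _ _
          exact le_trans (by norm_num) (le_trans h3 h4)
        · exact Nat.zero_le _
      · beta_reduce
        split_ifs
        · exact le_rfl
        · exact Nat.zero_le _
      · rw [Finset.sum_ite_mem, Finset.univ_inter, Finset.sum_const, smul_eq_mul, mul_one,
          mul_one]
        exact hS
  choose A C B c e1 e2 e3 e4 e5 e6 using hty
  refine ⟨∑ i, A i, ∑ i, C i, fun k => ∑ i, B i k, fun k => ∑ i, c i k, ?_, ?_, ?_, ?_, ?_, ?_⟩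
  · exact (Finset.sum_le_sum (fun i _ => e2 i)).trans (hsum p)
  · intro k
    have h1 : 2 * ∑ i, B i k + ∑ i, c i k = ∑ i, (2 * B i k + c i k) := by
      rw [Finset.sum_add_distrib, Finset.mul_sum]
    have h2 : ∑ i, (2 * B i k + c i k) ≤ ∑ i, (h i (p + off k 0) + h i (p + off k 1) +
        h i (p + off k 2)) := Finset.sum_le_sum (fun i _ => e3 i k)
    have h3 : ∑ i, (h i (p + off k 0) + h i (p + off k 1) + h i (p + off k 2)) =
        ∑ i, h i (p + off k 0) + ∑ i, h i (p + off k 1) + ∑ i, h i (p + off k 2) := by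
      rw [Finset.sum_add_distrib, Finset.sum_add_distrib]
    rw [h1]
    refine h2.trans (h3 ▸ ?_)
    exact Nat.add_le_add (Nat.add_le_add (hsum _) (hsum _)) (hsum _)
  · intro k
    have g0 := hsum (p + off k 0)
    have g1 := hsum (p + off k 1)
    have g2 := hsum (p + off k 2)
    have h1 : ∑ i, B i k ≤ ∑ i, (h i (p + off k 0) + h i (p + off k 1)) :=
      Finset.sum_le_sum (fun i _ => (e4 i k).1)
    have h2 : ∑ i, B i k ≤ ∑ i, (h i (p + off k 0) + h i (p + off k 2)) :=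
      Finset.sum_le_sum (fun i _ => (e4 i k).2.1)
    have h3 : ∑ i, B i k ≤ ∑ i, (h i (p + off k 1) + h i (p + off k 2)) :=
      Finset.sum_le_sum (fun i _ => (e4 i k).2.2)
    rw [Finset.sum_add_distrib] at h1 h2 h3
    beta_reduce
    refine ⟨?_, ?_, ?_⟩ <;> omega
  · intro k
    exact Finset.sum_le_sum (fun i _ => e5 i k)
  · rw [Finset.mul_sum, Finset.sum_comm]
    exact Finset.sum_le_sum (fun i _ => e6 i)
  · have h1 : ∑ k, ∑ i, B i k = ∑ i, ∑ k, B i k := Finset.sum_comm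
    rw [h1, ← Finset.sum_add_distrib, ← Finset.sum_add_distrib,
      Finset.sum_congr rfl (fun i _ => e1 i)]
    simp

/-- the inequalities which follow for the weights -/
theorem Feas.bounds {x0 : ℕ} {y : Fin 4 → Fin 3 → ℕ} (h : Feas x0 y)
    (hs : x0 + ∑ k, (y k 0 + y k 1 + y k 2) = 13) :
    (∑ k, ws (y k 0) (y k 1) (y k 2) ≤ 3 * (x0 - 1)) ∧
    8 ≤ 2 * x0 + ∑ k, Pm (y k 0) (y k 1) (y k 2) ∧
    (∑ k, mn (y k 0 + y k 1 + y k 2) 1 ≤ 2 → 7 ≤ x0 + ∑ k, Pm (y k 0) (y k 1) (y k 2)) ∧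
    (x0 = 2 → ∑ k, Pm (y k 0) (y k 1) (y k 2) ≤ 4 →
      3 ≤ ∑ k, mn (ws (y k 0) (y k 1) (y k 2)) 1) := by
  obtain ⟨nA, T, nB, c, h1, h2, h3, h4, h5, h6⟩ := h
  obtain ⟨S, hS⟩ : ∃ S : Fin 4 → ℕ, S = fun k => y k 0 + y k 1 + y k 2 := ⟨_, rfl⟩
  obtain ⟨P, hPd⟩ : ∃ P : Fin 4 → ℕ, P = fun k => Pm (y k 0) (y k 1) (y k 2) := ⟨_, rfl⟩
  have hP1 : ∀ k, nB k ≤ P k := by
    intro k
    have h2k := h2 k
    obtain ⟨g1, g2, g3⟩ := h3 k
    rw [hPd]
    simp only [Pm, mn_eq]
    refine le_min ?_ (le_min g1 (le_min g2 g3))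
    omega
  have hP2 : ∀ k, 2 * P k ≤ S k := by
    intro k
    rw [hPd, hS]
    simp only [Pm, mn_eq]
    have := min_le_left ((y k 0 + y k 1 + y k 2) / 2)
      (min (y k 0 + y k 1) (min (y k 0 + y k 2) (y k 1 + y k 2)))
    omega
  have hW : ∀ k, ws (y k 0) (y k 1) (y k 2) = S k - 2 * P k := by
    intro k
    rw [hPd, hS]
    rfl
  have hS' : ∀ k, 2 * nB k + c k ≤ S k := by
    intro k
    rw [hS]
    exact h2 k
  have e1 : ∑ k, (y k 0 + y k 1 + y k 2) = ∑ k, S k := by rw [hS]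
  have e2 : ∑ k, Pm (y k 0) (y k 1) (y k 2) = ∑ k, P k := by rw [hPd]
  have e3 : ∑ k, mn (y k 0 + y k 1 + y k 2) 1 = ∑ k, min (S k) 1 := by
    rw [hS]
    exact Finset.sum_congr rfl (fun k _ => mn_eq _ _)
  have e4 : ∑ k, ws (y k 0) (y k 1) (y k 2) = ∑ k, (S k - 2 * P k) :=
    Finset.sum_congr rfl (fun k _ => hW k)
  have e5 : ∑ k, mn (ws (y k 0) (y k 1) (y k 2)) 1 = ∑ k, min (S k - 2 * P k) 1 :=
    Finset.sum_congr rfl (fun k _ => by rw [hW k, mn_eq])
  rw [e1] at hs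
  rw [e2, e3, e4, e5]
  clear e1 e2 e3 e4 e5 h2 h3 hS hPd hW
  have f1 : ∑ k, nB k ≤ ∑ k, P k := Finset.sum_le_sum (fun k _ => hP1 k)
  have f2 : ∑ k, (S k - 2 * P k) + 2 * ∑ k, P k = ∑ k, S k := by
    rw [Finset.mul_sum, ← Finset.sum_add_distrib]
    exact Finset.sum_congr rfl (fun k _ => Nat.sub_add_cancel (hP2 k))
  have f3 : 2 * ∑ k, nB k + ∑ k, c k ≤ ∑ k, S k := by
    rw [Finset.mul_sum, ← Finset.sum_add_distrib]
    exact Finset.sum_le_sum (fun k _ => hS' k)
  have f4 : T + 1 ≤ x0 := by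
    generalize ∑ k, nB k = N at *
    generalize ∑ k, c k = D at *
    generalize ∑ k, S k = Q at *
    omega
  refine ⟨?_, ?_, ?_, ?_⟩
  · generalize ∑ k, nB k = N at *
    generalize ∑ k, c k = D at *
    generalize ∑ k, S k = Q at *
    generalize ∑ k, P k = P' at *
    generalize ∑ k, (S k - 2 * P k) = W at *
    omega
  · generalize ∑ k, nB k = N at *
    generalize ∑ k, P k = P' at *
    omega
  · intro h7
    have g1 : ∀ k, c k ≤ T * min (S k) 1 := by
      intro k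
      have a1 := h4 k
      have a2 := hS' k
      rcases Nat.eq_zero_or_pos (S k) with h0 | h0
      · have : c k = 0 := by omega
        rw [this]
        exact Nat.zero_le _
      · rw [min_eq_right h0, mul_one]
        exact a1
    have g2 : ∑ k, c k ≤ T * ∑ k, min (S k) 1 := by
      rw [Finset.mul_sum]
      exact Finset.sum_le_sum (fun k _ => g1 k)
    have g3 : T * ∑ k, min (S k) 1 ≤ T * 2 := Nat.mul_le_mul_left _ h7
    have g4 : T = 0 := by omega
    generalize ∑ k, nB k = N at *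
    generalize ∑ k, P k = P' at *
    omega
  · intro hx hp4
    have g1 : T = 1 ∧ ∑ k, nB k = 4 ∧ ∑ k, P k = 4 := by
      generalize ∑ k, nB k = N at *
      generalize ∑ k, P k = P' at *
      omega
    obtain ⟨g2, g3, g4⟩ := g1
    have g5 : ∀ k ∈ Finset.univ, nB k = P k :=
      (Finset.sum_eq_sum_iff_of_le (fun k _ => hP1 k)).mp (by rw [g3, g4])
    have g6 : ∀ k, c k ≤ min (S k - 2 * P k) 1 := by
      intro k
      have a1 := h4 k
      have a2 := hS' k
      have a3 := g5 k (Finset.mem_univ k)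
      refine le_min ?_ ?_
      · omega
      · omega
    have g7 := Finset.sum_le_sum (fun k (_ : k ∈ Finset.univ) => g6 k)
    omega

end Pool.Agent.R560.ASP
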