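import Mathlib

/-!
# Weights on the projective plane of order three: the finite check

The points of the plane are the residues modulo `13`, the lines are the translates of the
difference set `{0, 1, 3, 9}`.
-/

set_option autoImplicit false

namespace Pool.Agent.R560.ASP

/-- minimum, in a form which the kernel evaluates quickly -/
def mn (a b : ℕ) : ℕ := bif Nat.ble a b then a else b

theorem mn_eq (a b : ℕ) : mn a b = min a b := by
  unfold mn
  rcases Nat.le_total a b with h | h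
  · rw [min_eq_left h, Nat.ble_eq_true_of_le h]; rfl
  · rcases Nat.lt_or_eq_of_le h with h1 | h1
    · rw [min_eq_right h]
      have : Nat.ble a b = false := by
        rw [Bool.eq_false_iff]
        intro h2
        exact absurd (Nat.le_of_ble_eq_true h2) (not_le.mpr h1)
      rw [this]; rfl
    · subst h1
      rw [min_self]
      cases Nat.ble b b <;> rfl

/-- upper bound for the number of disjoint pairs of different letters -/
def Pm (a b c : ℕ) : ℕ := mn ((a + b + c) / 2) (mn (a + b) (mn (a + c) (b + c)))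

/-- the number of letters which are not in pairs -/
def ws (a b c : ℕ) : ℕ := a + b + c - 2 * Pm a b c

/-- A point of weight `x0`, the four lines through it carry the other weights `(x1, x3, x9)`,
`(x12, x2, x8)`, `(x10, x11, x6)`, `(x4, x5, x7)`: a criterion which shows that there are no seven
disjoint recovery sets. -/
def bad (x0 x1 x2 x3 x4 x5 x6 x7 x8 x9 x10 x11 x12 : ℕ) : Bool :=
  Nat.ble 1 x0 &&
  (Nat.ble (2 * x0 + (Pm x1 x3 x9 + Pm x12 x2 x8 + Pm x10 x11 x6 + Pm x4 x5 x7)) 7 ||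
  (Nat.ble (mn (x1 + x3 + x9) 1 + mn (x12 + x2 + x8) 1 + mn (x10 + x11 + x6) 1 +
      mn (x4 + x5 + x7) 1) 2 &&
    Nat.ble (x0 + (Pm x1 x3 x9 + Pm x12 x2 x8 + Pm x10 x11 x6 + Pm x4 x5 x7)) 6) ||
  (Nat.beq x0 2 && Nat.ble (Pm x1 x3 x9 + Pm x12 x2 x8 + Pm x10 x11 x6 + Pm x4 x5 x7) 4 &&
    Nat.ble (mn (ws x1 x3 x9) 1 + mn (ws x12 x2 x8) 1 + mn (ws x10 x11 x6) 1 +
      mn (ws x4 x5 x7) 1) 2))

/-- the same for all points, and a check whether all the weight is on one line -/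
def kill (x0 x1 x2 x3 x4 x5 x6 x7 x8 x9 x10 x11 x12 : ℕ) : Bool :=
  bad x0 x1 x2 x3 x4 x5 x6 x7 x8 x9 x10 x11 x12 ||
  (bad x1 x2 x3 x4 x5 x6 x7 x8 x9 x10 x11 x12 x0 ||
  (bad x2 x3 x4 x5 x6 x7 x8 x9 x10 x11 x12 x0 x1 ||
  (bad x3 x4 x5 x6 x7 x8 x9 x10 x11 x12 x0 x1 x2 ||
  (bad x4 x5 x6 x7 x8 x9 x10 x11 x12 x0 x1 x2 x3 ||
  (bad x5 x6 x7 x8 x9 x10 x11 x12 x0 x1 x2 x3 x4 ||
  (bad x6 x7 x8 x9 x10 x11 x12 x0 x1 x2 x3 x4 x5 ||
  (bad x7 x8 x9 x10 x11 x12 x0 x1 x2 x3 x4 x5 x6 ||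
  (bad x8 x9 x10 x11 x12 x0 x1 x2 x3 x4 x5 x6 x7 ||
  (bad x9 x10 x11 x12 x0 x1 x2 x3 x4 x5 x6 x7 x8 ||
  (bad x10 x11 x12 x0 x1 x2 x3 x4 x5 x6 x7 x8 x9 ||
  (bad x11 x12 x0 x1 x2 x3 x4 x5 x6 x7 x8 x9 x10 ||
  (bad x12 x0 x1 x2 x3 x4 x5 x6 x7 x8 x9 x10 x11 ||
  (Nat.beq (x0 + x1 + x3 + x9) 13 ||
  (Nat.beq (x1 + x2 + x4 + x10) 13 ||
  (Nat.beq (x2 + x3 + x5 + x11) 13 ||
  (Nat.beq (x3 + x4 + x6 + x12) 13 ||
  (Nat.beq (x4 + x5 + x7 + x0) 13 ||
  (Nat.beq (x5 + x6 + x8 + x1) 13 ||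
  (Nat.beq (x6 + x7 + x9 + x2) 13 ||
  (Nat.beq (x7 + x8 + x10 + x3) 13 ||
  (Nat.beq (x8 + x9 + x11 + x4) 13 ||
  (Nat.beq (x9 + x10 + x12 + x5) 13 ||
  (Nat.beq (x10 + x11 + x0 + x6) 13 ||
  (Nat.beq (x11 + x12 + x1 + x7) 13 ||
  Nat.beq (x12 + x0 + x2 + x8) 13))))))))))))))))))))))))

/-- bounded universal quantifier -/
def allBelow : ℕ → (ℕ → Bool) → Bool
  | 0, _ => true
  | n + 1, f => f n && allBelow n f

theorem allBelow_spec {n : ℕ} {f : ℕ → Bool} (h : allBelow n f = true) :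
    ∀ i < n, f i = true := by
  induction n with
  | zero => intro i hi; omega
  | succ n ih =>
    rw [allBelow, Bool.and_eq_true] at h
    intro i hi
    rcases Nat.lt_succ_iff_lt_or_eq.mp hi with h1 | rfl
    · exact ih h.2 i h1
    · exact h.1

/-- `a = 0` or `a ≥ m` -/
def ok (m a : ℕ) : Bool := Nat.beq a 0 || Nat.ble m a

theorem ok_of {m a : ℕ} (h : a = 0 ∨ m ≤ a) : ok m a = true := by
  rcases h with rfl | h
  · rfl
  · rw [ok, Nat.ble_eq_true_of_le h, Bool.or_true]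

/-- the loop over the weights of the three other points of a line -/
def line (m rem w : ℕ) (K : ℕ → ℕ → ℕ → ℕ → ℕ → Bool) : Bool :=
  allBelow (rem + 1) fun a => bif ok m a then
    (allBelow (rem + 1 - a) fun b => bif ok m b then
      (allBelow (rem + 1 - a - b) fun c => bif ok m c then
        (bif Nat.ble (ws a b c) w then K a b c (rem - a - b - c) (w - ws a b c) else true)
        else true) else true) else true

theorem line_spec {m rem w : ℕ} {K : ℕ → ℕ → ℕ → ℕ → ℕ → Bool} (h : line m rem w K = true)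
    {a b c : ℕ} (ha : a = 0 ∨ m ≤ a) (hb : b = 0 ∨ m ≤ b) (hc : c = 0 ∨ m ≤ c)
    (hs : a + b + c ≤ rem) (hw : ws a b c ≤ w) :
    K a b c (rem - a - b - c) (w - ws a b c) = true := by
  have h1 := allBelow_spec h a (by omega)
  rw [ok_of ha, cond_true] at h1
  have h2 := allBelow_spec h1 b (by omega)
  rw [ok_of hb, cond_true] at h2
  have h3 := allBelow_spec h2 c (by omega)
  rw [ok_of hc, cond_true, Nat.ble_eq_true_of_le hw, cond_true] at h3
  exact h3

/-- the loop over the weights of the three other points of the last line -/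
def lastLine (m rem w : ℕ) (K : ℕ → ℕ → ℕ → Bool) : Bool :=
  allBelow (rem + 1) fun a => bif ok m a then
    (allBelow (rem + 1 - a) fun b => bif ok m b then
      (bif ok m (rem - a - b) then
        (bif Nat.ble (ws a b (rem - a - b)) w then K a b (rem - a - b) else true)
        else true) else true) else true

theorem lastLine_spec {m rem w : ℕ} {K : ℕ → ℕ → ℕ → Bool} (h : lastLine m rem w K = true)
    {a b c : ℕ} (ha : a = 0 ∨ m ≤ a) (hb : b = 0 ∨ m ≤ b) (hc : c = 0 ∨ m ≤ c)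
    (hs : a + b + c = rem) (hw : ws a b c ≤ w) : K a b c = true := by
  have hc' : rem - a - b = c := by omega
  have h1 := allBelow_spec h a (by omega)
  rw [ok_of ha, cond_true] at h1
  have h2 := allBelow_spec h1 b (by omega)
  rw [ok_of hb, cond_true, hc', ok_of hc, cond_true, Nat.ble_eq_true_of_le hw, cond_true] at h2
  exact h2

/-- all weights with minimal positive weight `m` at the point `0` -/
def chk (m : ℕ) : Bool :=
  line m (13 - m) (3 * (m - 1)) fun x1 x3 x9 r w =>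
    line m r w fun x12 x2 x8 r w =>
      line m r w fun x10 x11 x6 r w =>
        lastLine m r w fun x4 x5 x7 => kill m x1 x2 x3 x4 x5 x6 x7 x8 x9 x10 x11 x12

theorem chk_spec {m : ℕ} (h : chk m = true) {x1 x2 x3 x4 x5 x6 x7 x8 x9 x10 x11 x12 : ℕ}
    (h1 : x1 = 0 ∨ m ≤ x1) (h2 : x2 = 0 ∨ m ≤ x2) (h3 : x3 = 0 ∨ m ≤ x3) (h4 : x4 = 0 ∨ m ≤ x4)
    (h5 : x5 = 0 ∨ m ≤ x5) (h6 : x6 = 0 ∨ m ≤ x6) (h7 : x7 = 0 ∨ m ≤ x7) (h8 : x8 = 0 ∨ m ≤ x8)
    (h9 : x9 = 0 ∨ m ≤ x9) (h10 : x10 = 0 ∨ m ≤ x10) (h11 : x11 = 0 ∨ m ≤ x11)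
    (h12 : x12 = 0 ∨ m ≤ x12)
    (hs : m + x1 + x2 + x3 + x4 + x5 + x6 + x7 + x8 + x9 + x10 + x11 + x12 = 13)
    (hw : ws x1 x3 x9 + ws x12 x2 x8 + ws x10 x11 x6 + ws x4 x5 x7 ≤ 3 * (m - 1)) :
    kill m x1 x2 x3 x4 x5 x6 x7 x8 x9 x10 x11 x12 = true := by
  have e1 := line_spec h h1 h3 h9 (by omega) (by omega)
  have e2 := line_spec e1 h12 h2 h8 (by omega) (by omega)
  have e3 := line_spec e2 h10 h11 h6 (by omega) (by omega)
  exact lastLine_spec e3 h4 h5 h7 (by omega) (by omega)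

set_option maxRecDepth 100000 in
theorem chk_all : allBelow 13 (fun m => chk (m + 1)) = true := by
  decide +kernel

end Pool.Agent.R560.ASP
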