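import Mathlib

/-!
# All-symbol PIR codes and all-symbol batch codes: definitions
-/

set_option autoImplicit false

namespace Pool.Agent.R560.ASP

/-- The `k × n` matrix `G` serves the vectors `v 0, …, v (t - 1)` of `F ^ k`: there are pairwise
disjoint sets `R 0, …, R (t - 1)` of columns such that `v i` is in the span of the columns in
`R i`. -/
def Serves {F : Type} [Field F] {k n t : ℕ} (G : Matrix (Fin k) (Fin n) F)
    (v : Fin t → Fin k → F) : Prop :=
  ∃ R : Fin t → Finset (Fin n), (∀ i j, i ≠ j → Disjoint (R i) (R j)) ∧
    ∀ i, v i ∈ Submodule.span F (G.col '' (R i : Set (Fin n)))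

/-- The `t`-all-symbol PIR property: `G` serves `t` copies of each of its columns. -/
def AllSymbolPIR {F : Type} [Field F] {k n : ℕ} (t : ℕ) (G : Matrix (Fin k) (Fin n) F) : Prop :=
  ∀ j, Serves G (fun _ : Fin t => G.col j)

/-- The `t`-all-symbol batch property: `G` serves all families of `t` of its columns (with
repetitions). -/
def AllSymbolBatch {F : Type} [Field F] {k n : ℕ} (t : ℕ) (G : Matrix (Fin k) (Fin n) F) : Prop :=
  ∀ f : Fin t → Fin n, Serves G (fun i => G.col (f i))

/-- `ASP(k, t, q)`, `q = |F|`: the minimal length `n` of a `k`-dimensional linear code over `F` with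
the `t`-all-symbol PIR property. The generator matrices of the `k`-dimensional codes of length `n`
are the `k × n` matrices of rank `k`. -/
noncomputable def ASP (F : Type) [Field F] (k t : ℕ) : ℕ :=
  sInf {n | ∃ G : Matrix (Fin k) (Fin n) F, G.rank = k ∧ AllSymbolPIR t G}

/-- `ASB(k, t, q)`, `q = |F|`: the minimal length `n` of a `k`-dimensional linear code over `F` with
the `t`-all-symbol batch property. -/
noncomputable def ASB (F : Type) [Field F] (k t : ℕ) : ℕ :=
  sInf {n | ∃ G : Matrix (Fin k) (Fin n) F, G.rank = k ∧ AllSymbolBatch t G}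

end Pool.Agent.R560.ASP
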