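import Pool.Agent.R560.ASP.Bound

/-!
# There is no ternary `[13, 3]` code with seven disjoint recovery sets for every symbol
-/

set_option autoImplicit false

namespace Pool.Agent.R560.ASP

open Finset

theorem sum13 (w : Fin 13 → ℕ) : ∑ q, w q = w 0 + w 1 + w 2 + w 3 + w 4 + w 5 + w 6 + w 7 + w 8 +
    w 9 + w 10 + w 11 + w 12 := by
  rw [Fin.sum_univ_castSucc, Fin.sum_univ_castSucc, Fin.sum_univ_castSucc, Fin.sum_univ_castSucc,
    Fin.sum_univ_castSucc, Fin.sum_univ_eight]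
  rfl

theorem shift_sum (z : Fin 13 → ℕ) (i : Fin 13) : ∑ q, z (i + q) = ∑ q, z q :=
  Fintype.sum_equiv (Equiv.addLeft i) _ _ (fun _ => rfl)

/-- the criterion at the point `i` -/
def badF (z : Fin 13 → ℕ) (i : Fin 13) : Bool :=
  bad (z i) (z (i + 1)) (z (i + 2)) (z (i + 3)) (z (i + 4)) (z (i + 5)) (z (i + 6)) (z (i + 7))
    (z (i + 8)) (z (i + 9)) (z (i + 10)) (z (i + 11)) (z (i + 12))

theorem badF_false (z : Fin 13 → ℕ) (i : Fin 13) (hz : ∑ q, z q = 13)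
    (hF : 1 ≤ z i → Feas (z i) (fun k a => z (i + off k a))) : badF z i = false := by
  by_contra hcon
  rw [Bool.not_eq_false, badF, bad, Bool.and_eq_true, Nat.ble_eq] at hcon
  obtain ⟨h1, h2⟩ := hcon
  have hs : z i + ∑ k, (z (i + off k 0) + z (i + off k 1) + z (i + off k 2)) = 13 := by
    have h3 := shift_sum z i
    rw [sum13, hz, add_zero] at h3
    rw [Fin.sum_univ_four]
    change z i + ((z (i + 1) + z (i + 3) + z (i + 9)) + (z (i + 12) + z (i + 2) + z (i + 8)) +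
      (z (i + 10) + z (i + 11) + z (i + 6)) + (z (i + 4) + z (i + 5) + z (i + 7))) = 13
    omega
  obtain ⟨-, g1, g2, g3⟩ := (hF h1).bounds hs
  rw [Fin.sum_univ_four] at g1
  rw [Fin.sum_univ_four, Fin.sum_univ_four] at g2 g3
  change 8 ≤ 2 * z i + (Pm (z (i + 1)) (z (i + 3)) (z (i + 9)) +
    Pm (z (i + 12)) (z (i + 2)) (z (i + 8)) + Pm (z (i + 10)) (z (i + 11)) (z (i + 6)) +
    Pm (z (i + 4)) (z (i + 5)) (z (i + 7))) at g1
  change mn (z (i + 1) + z (i + 3) + z (i + 9)) 1 + mn (z (i + 12) + z (i + 2) + z (i + 8)) 1 +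
    mn (z (i + 10) + z (i + 11) + z (i + 6)) 1 + mn (z (i + 4) + z (i + 5) + z (i + 7)) 1 ≤ 2 →
    7 ≤ z i + (Pm (z (i + 1)) (z (i + 3)) (z (i + 9)) +
    Pm (z (i + 12)) (z (i + 2)) (z (i + 8)) + Pm (z (i + 10)) (z (i + 11)) (z (i + 6)) +
    Pm (z (i + 4)) (z (i + 5)) (z (i + 7))) at g2
  change z i = 2 → Pm (z (i + 1)) (z (i + 3)) (z (i + 9)) +
    Pm (z (i + 12)) (z (i + 2)) (z (i + 8)) + Pm (z (i + 10)) (z (i + 11)) (z (i + 6)) +
    Pm (z (i + 4)) (z (i + 5)) (z (i + 7)) ≤ 4 →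
    3 ≤ mn (ws (z (i + 1)) (z (i + 3)) (z (i + 9))) 1 +
      mn (ws (z (i + 12)) (z (i + 2)) (z (i + 8))) 1 +
      mn (ws (z (i + 10)) (z (i + 11)) (z (i + 6))) 1 +
      mn (ws (z (i + 4)) (z (i + 5)) (z (i + 7))) 1 at g3
  generalize Pm (z (i + 1)) (z (i + 3)) (z (i + 9)) +
    Pm (z (i + 12)) (z (i + 2)) (z (i + 8)) + Pm (z (i + 10)) (z (i + 11)) (z (i + 6)) +
    Pm (z (i + 4)) (z (i + 5)) (z (i + 7)) = P at *
  generalize mn (z (i + 1) + z (i + 3) + z (i + 9)) 1 + mn (z (i + 12) + z (i + 2) + z (i + 8)) 1 +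
    mn (z (i + 10) + z (i + 11) + z (i + 6)) 1 + mn (z (i + 4) + z (i + 5) + z (i + 7)) 1 = E at *
  generalize mn (ws (z (i + 1)) (z (i + 3)) (z (i + 9))) 1 +
      mn (ws (z (i + 12)) (z (i + 2)) (z (i + 8))) 1 +
      mn (ws (z (i + 10)) (z (i + 11)) (z (i + 6))) 1 +
      mn (ws (z (i + 4)) (z (i + 5)) (z (i + 7))) 1 = E' at *
  rw [Bool.or_eq_true, Bool.or_eq_true, Bool.and_eq_true, Bool.and_eq_true, Bool.and_eq_true,
    Nat.ble_eq, Nat.ble_eq, Nat.ble_eq, Nat.ble_eq, Nat.ble_eq, Nat.beq_eq] at h2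
  rcases h2 with (h2 | ⟨h2, h3⟩) | ⟨⟨h2, h3⟩, h4⟩
  · omega
  · have := g2 h2
    omega
  · have := g3 h2 h3
    omega

theorem kill_cases (z : Fin 13 → ℕ)
    (h : kill (z 0) (z 1) (z 2) (z 3) (z 4) (z 5) (z 6) (z 7) (z 8) (z 9) (z 10) (z 11) (z 12) =
      true) :
    (∃ i, badF z i = true) ∨ ∃ t, z t + z (t + 1) + z (t + 3) + z (t + 9) = 13 := by
  simp only [kill, Bool.or_eq_true] at h
  rcases h with h | h | h | h | h | h | h | h | h | h | h | h | h | h | h | h | h | h | h | h | h |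
    h | h | h | h | h
  · exact Or.inl ⟨0, h⟩
  · exact Or.inl ⟨1, h⟩
  · exact Or.inl ⟨2, h⟩
  · exact Or.inl ⟨3, h⟩
  · exact Or.inl ⟨4, h⟩
  · exact Or.inl ⟨5, h⟩
  · exact Or.inl ⟨6, h⟩
  · exact Or.inl ⟨7, h⟩
  · exact Or.inl ⟨8, h⟩
  · exact Or.inl ⟨9, h⟩
  · exact Or.inl ⟨10, h⟩
  · exact Or.inl ⟨11, h⟩
  · exact Or.inl ⟨12, h⟩
  · exact Or.inr ⟨0, Nat.eq_of_beq_eq_true h⟩
  · exact Or.inr ⟨1, Nat.eq_of_beq_eq_true h⟩
  · exact Or.inr ⟨2, Nat.eq_of_beq_eq_true h⟩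
  · exact Or.inr ⟨3, Nat.eq_of_beq_eq_true h⟩
  · exact Or.inr ⟨4, Nat.eq_of_beq_eq_true h⟩
  · exact Or.inr ⟨5, Nat.eq_of_beq_eq_true h⟩
  · exact Or.inr ⟨6, Nat.eq_of_beq_eq_true h⟩
  · exact Or.inr ⟨7, Nat.eq_of_beq_eq_true h⟩
  · exact Or.inr ⟨8, Nat.eq_of_beq_eq_true h⟩
  · exact Or.inr ⟨9, Nat.eq_of_beq_eq_true h⟩
  · exact Or.inr ⟨10, Nat.eq_of_beq_eq_true h⟩
  · exact Or.inr ⟨11, Nat.eq_of_beq_eq_true h⟩
  · exact Or.inr ⟨12, Nat.eq_of_beq_eq_true h⟩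

theorem no_weights (z : Fin 13 → ℕ) (hz : ∑ q, z q = 13)
    (hF : ∀ i, 1 ≤ z i → Feas (z i) (fun k a => z (i + off k a)))
    (hL : ∀ t, z t + z (t + 1) + z (t + 3) + z (t + 9) ≠ 13)
    (h0 : 1 ≤ z 0) (hmin : ∀ i, z i = 0 ∨ z 0 ≤ z i) : False := by
  have hs := sum13 z
  rw [hz] at hs
  have hc : chk (z 0) = true := by
    have h1 := allBelow_spec chk_all (z 0 - 1) (by omega)
    have h2 : z 0 - 1 + 1 = z 0 := by omega
    rw [h2] at h1
    exact h1
  have hs0 : z 0 + ∑ k, (z (0 + off k 0) + z (0 + off k 1) + z (0 + off k 2)) = 13 := by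
    rw [Fin.sum_univ_four]
    change z 0 + ((z 1 + z 3 + z 9) + (z 12 + z 2 + z 8) + (z 10 + z 11 + z 6) +
      (z 4 + z 5 + z 7)) = 13
    omega
  have hw := ((hF 0 h0).bounds hs0).1
  rw [Fin.sum_univ_four] at hw
  change ws (z 1) (z 3) (z 9) + ws (z 12) (z 2) (z 8) + ws (z 10) (z 11) (z 6) +
    ws (z 4) (z 5) (z 7) ≤ 3 * (z 0 - 1) at hw
  have hk := chk_spec hc (hmin 1) (hmin 2) (hmin 3) (hmin 4) (hmin 5) (hmin 6) (hmin 7) (hmin 8)
    (hmin 9) (hmin 10) (hmin 11) (hmin 12) hs.symm hw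
  rcases kill_cases z hk with ⟨i, hi⟩ | ⟨t, ht⟩
  · rw [badF_false z i hz (hF i)] at hi
    exact absurd hi (by decide)
  · exact hL t ht

/-- The main result of the files: thirteen points, counted with multiplicity, never have the
property. -/
theorem no_points (f : Fin 13 → Fin 13) (H1 : ∀ t, ∃ j, inc t (f j) = false)
    (H2 : ∀ j0, ∃ R : Fin 7 → Finset (Fin 13), (∀ i j, i ≠ j → Disjoint (R i) (R j)) ∧
      ∀ i, (∃ j ∈ R i, f j = f j0) ∨
        ∀ t : Fin 13, inc t (f j0) = false → ∃ j ∈ R i, inc t (f j) = false) : False := by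
  classical
  obtain ⟨x, hx⟩ : ∃ x : Fin 13 → ℕ, x = fun q => (Finset.univ.filter (fun j => f j = q)).card :=
    ⟨_, rfl⟩
  have hxj : ∀ j, 1 ≤ x (f j) := by
    intro j
    rw [hx]
    exact Finset.card_pos.mpr ⟨j, Finset.mem_filter.mpr ⟨Finset.mem_univ _, rfl⟩⟩
  have hxe : ∀ q, 1 ≤ x q → ∃ j, f j = q := by
    intro q hq
    rw [hx] at hq
    obtain ⟨j, hj⟩ := Finset.card_pos.mp hq
    exact ⟨j, (Finset.mem_filter.mp hj).2⟩
  have hxs : ∑ q, x q = 13 := by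
    rw [hx]
    have := Finset.card_eq_sum_card_fiberwise (f := f) (s := Finset.univ) (t := Finset.univ)
      (fun _ _ => Finset.mem_univ _)
    rw [Finset.card_univ, Fintype.card_fin] at this
    exact this.symm
  have hxF : ∀ q, 1 ≤ x q → Feas (x q) (fun k a => x (q + off k a)) := by
    intro q hq
    obtain ⟨j0, rfl⟩ := hxe q hq
    obtain ⟨R, hR, hrec⟩ := H2 j0
    have := feas_of f (f j0) R hR hrec
    rw [hx]
    exact this
  -- a point of minimal positive weight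
  obtain ⟨p, hp1, hp2⟩ : ∃ p, 1 ≤ x p ∧ ∀ q, x q = 0 ∨ x p ≤ x q := by
    have hne : (Finset.univ.filter (fun q => 1 ≤ x q)).Nonempty :=
      ⟨f 0, Finset.mem_filter.mpr ⟨Finset.mem_univ _, hxj 0⟩⟩
    obtain ⟨p, hp, hmin⟩ := Finset.exists_min_image _ x hne
    refine ⟨p, (Finset.mem_filter.mp hp).2, fun q => ?_⟩
    rcases Nat.eq_zero_or_pos (x q) with h | h
    · exact Or.inl h
    · exact Or.inr (hmin q (Finset.mem_filter.mpr ⟨Finset.mem_univ _, h⟩))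
  refine no_weights (fun i => x (p + i)) ?_ ?_ ?_ ?_ ?_
  · rw [shift_sum, hxs]
  · intro i hi
    have := hxF (p + i) hi
    simpa only [add_assoc] using this
  · intro t ht
    obtain ⟨j, hj⟩ := H1 (p + t)
    obtain ⟨q, hq⟩ : ∃ q, f j = p + t + q := ⟨f j - (p + t), (add_sub_cancel (p + t) (f j)).symm⟩
    have h1 := hxj j
    rw [hq] at h1 hj
    have h2 := shift_sum x (p + t)
    rw [sum13, hxs] at h2
    have e0 : p + t + 0 = p + t := add_zero _
    have e1 : p + (t + 1) = p + t + 1 := (add_assoc _ _ _).symm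
    have e3 : p + (t + 3) = p + t + 3 := (add_assoc _ _ _).symm
    have e9 : p + (t + 9) = p + t + 9 := (add_assoc _ _ _).symm
    simp only [e1, e3, e9] at ht
    rw [e0] at h2
    have hq4 : q = 0 ∨ q = 1 ∨ q = 3 ∨ q = 9 := by
      generalize p + t = s at *
      clear hq hj e0 e1 e3 e9 hxj hxe hxF hp1 hp2 H1 H2
      by_contra hcon
      push Not at hcon
      obtain ⟨n0, n1, n3, n9⟩ := hcon
      have hlist : q = 0 ∨ q = 1 ∨ q = 2 ∨ q = 3 ∨ q = 4 ∨ q = 5 ∨ q = 6 ∨ q = 7 ∨ q = 8 ∨ q = 9 ∨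
          q = 10 ∨ q = 11 ∨ q = 12 := by
        fin_cases q <;> simp
      have hz : ∀ a b c d e f' g h' i' : ℕ, x (s + q) = a →
          a + b + c + d + e + f' + g + h' + i' ≤ 0 → False := by
        intro a b c d e f' g h' i' h3 h4
        omega
      rcases hlist with h | h | h | h | h | h | h | h | h | h | h | h | h
      · exact n0 h
      · exact n1 h
      · exact hz (x (s + 2)) (x (s + 4)) (x (s + 5)) (x (s + 6)) (x (s + 7)) (x (s + 8))
          (x (s + 10)) (x (s + 11)) (x (s + 12)) (by rw [h]) (by omega)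
      · exact n3 h
      · exact hz (x (s + 4)) (x (s + 2)) (x (s + 5)) (x (s + 6)) (x (s + 7)) (x (s + 8))
          (x (s + 10)) (x (s + 11)) (x (s + 12)) (by rw [h]) (by omega)
      · exact hz (x (s + 5)) (x (s + 2)) (x (s + 4)) (x (s + 6)) (x (s + 7)) (x (s + 8))
          (x (s + 10)) (x (s + 11)) (x (s + 12)) (by rw [h]) (by omega)
      · exact hz (x (s + 6)) (x (s + 2)) (x (s + 4)) (x (s + 5)) (x (s + 7)) (x (s + 8))
          (x (s + 10)) (x (s + 11)) (x (s + 12)) (by rw [h]) (by omega)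
      · exact hz (x (s + 7)) (x (s + 2)) (x (s + 4)) (x (s + 5)) (x (s + 6)) (x (s + 8))
          (x (s + 10)) (x (s + 11)) (x (s + 12)) (by rw [h]) (by omega)
      · exact hz (x (s + 8)) (x (s + 2)) (x (s + 4)) (x (s + 5)) (x (s + 6)) (x (s + 7))
          (x (s + 10)) (x (s + 11)) (x (s + 12)) (by rw [h]) (by omega)
      · exact n9 h
      · exact hz (x (s + 10)) (x (s + 2)) (x (s + 4)) (x (s + 5)) (x (s + 6)) (x (s + 7))
          (x (s + 8)) (x (s + 11)) (x (s + 12)) (by rw [h]) (by omega)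
      · exact hz (x (s + 11)) (x (s + 2)) (x (s + 4)) (x (s + 5)) (x (s + 6)) (x (s + 7))
          (x (s + 8)) (x (s + 10)) (x (s + 12)) (by rw [h]) (by omega)
      · exact hz (x (s + 12)) (x (s + 2)) (x (s + 4)) (x (s + 5)) (x (s + 6)) (x (s + 7))
          (x (s + 8)) (x (s + 10)) (x (s + 11)) (by rw [h]) (by omega)
    have hinc : inc (p + t) (p + t + q) = true := by
      generalize p + t = s at *
      rcases hq4 with rfl | rfl | rfl | rfl <;> simp [inc]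
    rw [hinc] at hj
    exact absurd hj (by decide)
  · change 1 ≤ x (p + 0)
    rw [add_zero]
    exact hp1
  · intro i
    change x (p + i) = 0 ∨ x (p + 0) ≤ x (p + i)
    rw [add_zero]
    exact hp2 (p + i)

end Pool.Agent.R560.ASP
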