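import Pool.Agent.R560.ASP.Defs
import Pool.Agent.R560.ASP.Final

/-!
# The failure of subadditivity
-/

set_option autoImplicit false

namespace Pool.Agent.R560.ASP

open Finset

theorem AllSymbolBatch.pir {F : Type} [Field F] {k n t : ℕ} {G : Matrix (Fin k) (Fin n) F}
    (h : AllSymbolBatch t G) : AllSymbolPIR t G := fun j => h (fun _ => j)

/-! ### The lower bound -/

theorem lower {n : ℕ} (G : Matrix (Fin 3) (Fin n) (ZMod 3)) (hG : G.rank = 3)
    (h : AllSymbolPIR 7 G) : 14 ≤ n := by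
  classical
  by_contra hn
  push Not at hn
  have hspan : Submodule.span (ZMod 3) (Set.range G.col) = ⊤ := by
    apply Submodule.eq_top_of_finrank_eq
    rw [← Matrix.rank_eq_finrank_span_cols, hG, Module.finrank_fin_fun]
  have hform : ∀ φ : Vec, (∀ j, form φ (G.col j) = 0) → φ = 0 := by
    intro φ hφ
    have h1 : Submodule.span (ZMod 3) (Set.range G.col) ≤ LinearMap.ker (form φ) := by
      rw [Submodule.span_le]
      rintro _ ⟨j, rfl⟩
      exact hφ j
    rw [hspan] at h1
    have h2 : ∀ v : Vec, form φ v = 0 := fun v => h1 (Submodule.mem_top)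
    funext i
    have h3 := h2 (Pi.single i 1)
    fin_cases i <;> simpa [form] using h3
  obtain ⟨j0, hj0⟩ : ∃ j0, G.col j0 ≠ 0 := by
    by_contra hcon
    push Not at hcon
    obtain ⟨φ, hφ0, -⟩ := exists_eq 0
    exact hφ0 (hform φ (fun j => by rw [hcon j, map_zero]))
  let g : Fin 13 → Vec := fun j =>
    if hj : (j : ℕ) < n then (if G.col ⟨j, hj⟩ = 0 then G.col j0 else G.col ⟨j, hj⟩)
    else G.col j0
  have hg0 : ∀ j, g j ≠ 0 := by
    intro j
    simp only [g]
    split_ifs with h1 h2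
    · exact hj0
    · exact h2
    · exact hj0
  have hgc : ∀ j, ∃ i, g j = G.col i := by
    intro j
    simp only [g]
    split_ifs with h1 h2
    · exact ⟨j0, rfl⟩
    · exact ⟨_, rfl⟩
    · exact ⟨j0, rfl⟩
  have hn' : n ≤ 13 := by omega
  have hgi : ∀ i : Fin n, G.col i ≠ 0 → g (Fin.castLE hn' i) = G.col i := by
    intro i hi
    simp only [g, Fin.val_castLE]
    rw [dif_pos i.2, if_neg hi]
  refine no_points (fun j => cls (g j)) ?_ ?_
  · intro t
    by_contra hcon
    push Not at hcon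
    obtain ⟨φ, hφ0, hφ⟩ := exists_eq t
    refine hφ0 (hform φ (fun i => ?_))
    by_cases hi : G.col i = 0
    · rw [hi, map_zero]
    · have h2 : inc t (cls (g (Fin.castLE hn' i))) = true :=
        eq_true_of_ne_false (hcon (Fin.castLE hn' i))
      rw [hgi i hi] at h2
      exact (form_cls hφ hi).mpr h2
  · intro j
    obtain ⟨i, hi⟩ := hgc j
    obtain ⟨R, hR, hrec⟩ := h i
    refine ⟨fun a => (R a).map (Fin.castLEEmb hn'), ?_, ?_⟩
    · intro a b hab
      exact (Finset.disjoint_map _).mpr (hR a b hab)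
    · intro a
      right
      intro t ht
      refine span_line hg0 (hg0 j) ?_ t ht
      rw [hi]
      have h1 : Submodule.span (ZMod 3) (G.col '' (R a : Set (Fin n))) ≤
          Submodule.span (ZMod 3) (g '' (((R a).map (Fin.castLEEmb hn') : Finset (Fin 13)) :
            Set (Fin 13))) := by
        rw [Submodule.span_le]
        rintro _ ⟨b, hb, rfl⟩
        by_cases hb0 : G.col b = 0
        · rw [hb0]
          exact Submodule.zero_mem _
        · rw [← hgi b hb0]
          apply Submodule.subset_span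
          refine ⟨Fin.castLE hn' b, ?_, rfl⟩
          rw [Finset.coe_map]
          exact ⟨b, hb, rfl⟩
      exact h1 (hrec a)

/-! ### Ranks -/

theorem rank_three {n : ℕ} (G : Matrix (Fin 3) (Fin n) (ZMod 3)) (c : Fin 3 → Fin n)
    (h : ∀ i, G.col (c i) = Pi.single i 1) : G.rank = 3 := by
  rw [Matrix.rank_eq_finrank_span_cols]
  have : Submodule.span (ZMod 3) (Set.range G.col) = ⊤ := by
    rw [eq_top_iff]
    intro v _
    have h1 : v = ∑ i, v i • (Pi.single i (1 : ZMod 3) : Vec) := by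
      funext j
      simp [Finset.sum_apply, Pi.single_apply]
    rw [h1]
    refine Submodule.sum_mem _ (fun i _ => Submodule.smul_mem _ _ ?_)
    rw [← h i]
    exact Submodule.subset_span ⟨c i, rfl⟩
  rw [this, finrank_top, Module.finrank_fin_fun]

/-! ### Seven copies of the unit matrix -/

def G21 : Matrix (Fin 3) (Fin 21) (ZMod 3) :=
  Matrix.of fun i j => if (j : ℕ) % 3 = i then 1 else 0

theorem G21_rank : G21.rank = 3 :=
  rank_three G21 ![0, 1, 2] (by decide +kernel)

theorem G21_batch : AllSymbolBatch 7 G21 := by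
  intro f
  have hlt : ∀ i : Fin 7, 3 * (i : ℕ) + (f i : ℕ) % 3 < 21 := by
    intro i
    have := i.2
    have := Nat.mod_lt (f i : ℕ) (show 0 < 3 by norm_num)
    omega
  refine ⟨fun i => {⟨3 * (i : ℕ) + (f i : ℕ) % 3, hlt i⟩}, ?_, ?_⟩
  · intro i j hij
    rw [Finset.disjoint_singleton]
    intro h
    apply hij
    have h1 := congrArg Fin.val h
    simp only at h1
    have := Nat.mod_lt (f i : ℕ) (show 0 < 3 by norm_num)
    have := Nat.mod_lt (f j : ℕ) (show 0 < 3 by norm_num)
    ext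
    omega
  · intro i
    apply Submodule.subset_span
    refine ⟨⟨3 * (i : ℕ) + (f i : ℕ) % 3, hlt i⟩, by simp, ?_⟩
    funext a
    change (if (3 * (i : ℕ) + (f i : ℕ) % 3) % 3 = (a : ℕ) then (1 : ZMod 3) else 0) =
      if (f i : ℕ) % 3 = (a : ℕ) then 1 else 0
    have : (3 * (i : ℕ) + (f i : ℕ) % 3) % 3 = (f i : ℕ) % 3 := by omega
    rw [this]

/-! ### Four points -/

theorem mem_span_of_eq {n : ℕ} (G : Matrix (Fin 3) (Fin n) (ZMod 3)) (R : Finset (Fin n))
    (c : Fin n → ZMod 3) (v : Fin 3 → ZMod 3) (h : v = ∑ j ∈ R, c j • G.col j) :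
    v ∈ Submodule.span (ZMod 3) (G.col '' (R : Set (Fin n))) := by
  rw [h]
  exact Submodule.sum_mem _ (fun j hj => Submodule.smul_mem _ _
    (Submodule.subset_span ⟨j, hj, rfl⟩))

def G4 : Matrix (Fin 3) (Fin 4) (ZMod 3) := !![1, 0, 0, 1; 0, 1, 0, 1; 0, 0, 1, 1]

theorem G4_rank : G4.rank = 3 :=
  rank_three G4 ![0, 1, 2] (by decide +kernel)

theorem G4_comp : ∀ j : Fin 4, ∃ c : Fin 4 → ZMod 3,
    G4.col j = ∑ i ∈ Finset.univ.erase j, c i • G4.col i := by
  decide +kernel

theorem G4_batch : AllSymbolBatch 2 G4 := by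
  intro f
  by_cases h : f 0 = f 1
  · refine ⟨![{f 0}, Finset.univ.erase (f 0)], ?_, ?_⟩
    · intro i j hij
      fin_cases i <;> fin_cases j
      · exact absurd rfl hij
      · simp
      · simp
      · exact absurd rfl hij
    · intro i
      fin_cases i
      · exact Submodule.subset_span ⟨f 0, by simp, rfl⟩
      · obtain ⟨c, hc⟩ := G4_comp (f 1)
        rw [← h] at hc
        have h2 := mem_span_of_eq G4 (Finset.univ.erase (f 0)) c (G4.col (f 0)) hc
        change G4.col (f 1) ∈ _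
        rw [← h]
        exact h2
  · refine ⟨fun i => {f i}, ?_, fun i => Submodule.subset_span ⟨f i, by simp, rfl⟩⟩
    intro i j hij
    rw [Finset.disjoint_singleton]
    fin_cases i <;> fin_cases j
    · exact absurd rfl hij
    · exact h
    · exact fun h' => h h'.symm
    · exact absurd rfl hij

/-! ### The affine plane of order three -/

/-- the nine vectors with coordinate sum one -/
def G9 : Matrix (Fin 3) (Fin 9) (ZMod 3) :=
  !![0, 0, 0, 1, 1, 1, 2, 2, 2; 0, 1, 2, 0, 1, 2, 0, 1, 2; 1, 0, 2, 0, 2, 1, 2, 1, 0]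

theorem G9_rank : G9.rank = 3 :=
  rank_three G9 ![3, 1, 0] (by decide +kernel)

/-- the recovery sets as bit masks: the point itself and the four pairs collinear with it -/
def recs : Fin 9 → List ℕ := ![[1, 6, 72, 272, 160], [2, 5, 144, 264, 96], [4, 3, 288, 136, 80],
  [8, 48, 65, 258, 132], [16, 40, 130, 257, 68], [32, 24, 260, 129, 66], [64, 384, 9, 34, 20],
  [128, 320, 18, 33, 12], [256, 192, 36, 17, 10]]

def mset (m : ℕ) : Finset (Fin 9) := Finset.univ.filter (fun j => Nat.testBit m j = true)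

theorem recs_spec : ∀ p : Fin 9, ∀ m ∈ recs p, ∃ c : ZMod 3,
    G9.col p = ∑ j ∈ mset m, c • G9.col j := by
  decide +kernel

/-- search for disjoint recovery sets -/
def solve : List (Fin 9) → ℕ → Bool
  | [], _ => true
  | p :: l, used => (recs p).any fun m => Nat.beq (Nat.land m used) 0 && solve l (Nat.lor used m)

theorem solve_all : ∀ a b : Fin 9, a ≤ b → ∀ c, b ≤ c → ∀ d, c ≤ d → ∀ e, d ≤ e →
    solve [a, b, c, d, e] 0 = true := by
  decide +kernel

theorem land_spec {m u : ℕ} (h : Nat.land m u = 0) (k : ℕ) :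
    ¬ (Nat.testBit m k = true ∧ Nat.testBit u k = true) := by
  rintro ⟨h1, h2⟩
  have h3 : Nat.testBit (m &&& u) k = true := by
    rw [Nat.testBit_and, h1, h2]
    rfl
  have h4 : m &&& u = 0 := h
  rw [h4, Nat.zero_testBit] at h3
  exact absurd h3 (by decide)

theorem solve_spec : ∀ (l : List (Fin 9)) (used : ℕ), solve l used = true →
    ∃ m : Fin l.length → ℕ, (∀ i, m i ∈ recs (l.get i)) ∧
      (∀ i k, ¬ (Nat.testBit (m i) k = true ∧ Nat.testBit used k = true)) ∧
      (∀ i j, i ≠ j → ∀ k, ¬ (Nat.testBit (m i) k = true ∧ Nat.testBit (m j) k = true)) := by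
  intro l
  induction l with
  | nil =>
    intro used _
    exact ⟨fun i => i.elim0, fun i => i.elim0, fun i => i.elim0, fun i => i.elim0⟩
  | cons p l ih =>
    intro used h
    rw [solve, List.any_eq_true] at h
    obtain ⟨m0, hm0, h1⟩ := h
    rw [Bool.and_eq_true] at h1
    obtain ⟨h1, h2⟩ := h1
    have h1' := land_spec (Nat.eq_of_beq_eq_true h1)
    obtain ⟨m, g1, g2, g3⟩ := ih _ h2
    have g4 : ∀ i k, ¬ (Nat.testBit (m i) k = true ∧ Nat.testBit used k = true) := by
      rintro i k ⟨a1, a2⟩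
      apply g2 i k
      refine ⟨a1, ?_⟩
      change Nat.testBit (used ||| m0) k = true
      rw [Nat.testBit_or, a2]
      rfl
    have g5 : ∀ i k, ¬ (Nat.testBit (m i) k = true ∧ Nat.testBit m0 k = true) := by
      rintro i k ⟨a1, a2⟩
      apply g2 i k
      refine ⟨a1, ?_⟩
      change Nat.testBit (used ||| m0) k = true
      rw [Nat.testBit_or, a2, Bool.or_true]
    refine ⟨Fin.cons m0 m, ?_, ?_, ?_⟩
    · intro i
      refine Fin.cases ?_ (fun i => ?_) i
      · exact hm0
      · exact g1 i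
    · intro i
      refine Fin.cases ?_ (fun i => ?_) i
      · exact h1'
      · exact g4 i
    · intro i j hij
      revert hij
      refine Fin.cases ?_ (fun i => ?_) i
      · refine Fin.cases ?_ (fun j => ?_) j
        · intro h; exact absurd rfl h
        · intro _ k hk
          exact g5 j k ⟨hk.2, hk.1⟩
      · refine Fin.cases ?_ (fun j => ?_) j
        · intro _ k hk
          exact g5 i k hk
        · intro hij
          exact g3 i j (fun h => hij (by rw [h]))

theorem serves_perm {k n t : ℕ} {F : Type} [Field F] {G : Matrix (Fin k) (Fin n) F}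
    {v : Fin t → Fin k → F} (σ : Equiv.Perm (Fin t)) (h : Serves G (fun i => v (σ i))) :
    Serves G v := by
  obtain ⟨R, h1, h2⟩ := h
  refine ⟨fun i => R (σ.symm i), fun i j hij => h1 _ _ (fun h => hij (σ.symm.injective h)), ?_⟩
  intro i
  have := h2 (σ.symm i)
  simpa using this

theorem G9_sorted (f : Fin 5 → Fin 9) (hmono : Monotone f) :
    Serves G9 (fun i => G9.col (f i)) := by
  have hs := solve_all (f 0) (f 1) (hmono (by decide)) (f 2) (hmono (by decide)) (f 3)
    (hmono (by decide)) (f 4) (hmono (by decide))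
  obtain ⟨m, h1, -, h3⟩ := solve_spec _ _ hs
  refine ⟨fun i => mset (m i), ?_, ?_⟩
  · intro i j hij
    rw [Finset.disjoint_left]
    intro k hk hk'
    exact h3 i j hij k ⟨(Finset.mem_filter.mp hk).2, (Finset.mem_filter.mp hk').2⟩
  · intro i
    have hget : [f 0, f 1, f 2, f 3, f 4].get i = f i := by
      revert i
      intro i
      have h5 : i = 0 ∨ i = 1 ∨ i = 2 ∨ i = 3 ∨ i = 4 := by
        have h6 : ∀ i : Fin 5, i = 0 ∨ i = 1 ∨ i = 2 ∨ i = 3 ∨ i = 4 := by decide
        exact h6 i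
      rcases h5 with h | h | h | h | h <;> rw [h] <;> rfl
    have h2 := h1 i
    rw [hget] at h2
    obtain ⟨c, hc⟩ := recs_spec (f i) (m i) h2
    exact mem_span_of_eq G9 (mset (m i)) (fun _ => c) _ hc

theorem G9_batch : AllSymbolBatch 5 G9 := by
  intro f
  apply serves_perm (Tuple.sort f)
  exact G9_sorted (f ∘ Tuple.sort f) (Tuple.monotone_sort f)

/-! ### The inequalities -/

theorem ASP_lower : 14 ≤ ASP (ZMod 3) 3 7 := by
  have hne : {n | ∃ G : Matrix (Fin 3) (Fin n) (ZMod 3), G.rank = 3 ∧ AllSymbolPIR 7 G}.Nonempty :=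
    ⟨21, G21, G21_rank, G21_batch.pir⟩
  obtain ⟨G, h1, h2⟩ := Nat.sInf_mem hne
  exact lower G h1 h2

theorem ASB_lower : 14 ≤ ASB (ZMod 3) 3 7 := by
  have hne : {n | ∃ G : Matrix (Fin 3) (Fin n) (ZMod 3), G.rank = 3 ∧
      AllSymbolBatch 7 G}.Nonempty := ⟨21, G21, G21_rank, G21_batch⟩
  obtain ⟨G, h1, h2⟩ := Nat.sInf_mem hne
  exact lower G h1 h2.pir

theorem ASP_five : ASP (ZMod 3) 3 5 ≤ 9 := Nat.sInf_le ⟨G9, G9_rank, G9_batch.pir⟩
theorem ASP_two : ASP (ZMod 3) 3 2 ≤ 4 := Nat.sInf_le ⟨G4, G4_rank, G4_batch.pir⟩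
theorem ASB_five : ASB (ZMod 3) 3 5 ≤ 9 := Nat.sInf_le ⟨G9, G9_rank, G9_batch⟩
theorem ASB_two : ASB (ZMod 3) 3 2 ≤ 4 := Nat.sInf_le ⟨G4, G4_rank, G4_batch⟩

end Pool.Agent.R560.ASP
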