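import Pool.Agent.R560.ASP.Check

/-!
# The projective plane over the field with three elements
-/

set_option autoImplicit false

namespace Pool.Agent.R560.ASP

open Finset

/-- vectors -/
abbrev Vec := Fin 3 → ZMod 3

/-- the points of the plane: the powers of an element of order `26` of the field of order `27` -/
def pts : Fin 13 → Vec := ![![1, 0, 0], ![0, 1, 0], ![0, 0, 1], ![2, 1, 0], ![0, 2, 1], ![2, 1, 2],
  ![1, 1, 1], ![2, 2, 1], ![2, 0, 2], ![1, 1, 0], ![0, 1, 1], ![2, 1, 1], ![2, 0, 1]]

/-- every nonzero vector is up to sign one of the points -/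
theorem exists_pt : ∀ v : Vec, v ≠ 0 → ∃ i : Fin 13, v = pts i ∨ v = -pts i := by
  decide +kernel

theorem pts_ne_zero : ∀ i, pts i ≠ 0 := by decide +kernel

theorem pts_inj : ∀ i j : Fin 13, (pts i = pts j ∨ pts i = -pts j) → i = j := by
  decide +kernel

/-- incidence of the point `i` with the line `t` -/
def inc (t i : Fin 13) : Bool := i == t || i == t + 1 || i == t + 3 || i == t + 9

/-- the equations of the lines -/
theorem exists_eq : ∀ t : Fin 13, ∃ φ : Vec, φ ≠ 0 ∧
    ∀ i : Fin 13, (φ 0 * pts i 0 + φ 1 * pts i 1 + φ 2 * pts i 2 = 0) ↔ inc t i = true := by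
  decide +kernel

/-- the other points of the four lines through a point -/
def off : Fin 4 → Fin 3 → Fin 13 := ![![1, 3, 9], ![12, 2, 8], ![10, 11, 6], ![4, 5, 7]]

theorem off_cover : ∀ p q : Fin 13, q ≠ p → ∃ k a, q = p + off k a := by decide +kernel

/-- points on two different lines through `p` are on a line which does not contain `p` -/
theorem off_line : ∀ (k : Fin 4) (a : Fin 3) (k' : Fin 4) (a' : Fin 3), k ≠ k' → ∀ p : Fin 13,
    ∃ t : Fin 13, inc t (p + off k a) = true ∧ inc t (p + off k' a') = true ∧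
      inc t p = false := by
  decide +kernel

theorem off_line' : ∀ (k : Fin 4) (a : Fin 3), ∀ p : Fin 13,
    ∃ t : Fin 13, inc t (p + off k a) = true ∧ inc t p = false := by
  decide +kernel

theorem exists_off_line : ∀ p : Fin 13, ∃ t : Fin 13, inc t p = false := by decide +kernel

/-- the combinatorial classification of sets of points whose span contains `p` -/
theorem classify (p : Fin 13) (Q : Finset (Fin 13)) (hp : p ∉ Q)
    (h : ∀ t : Fin 13, inc t p = false → ∃ q ∈ Q, inc t q = false) :
    (∃ (k : Fin 4) (a b : Fin 3), a ≠ b ∧ p + off k a ∈ Q ∧ p + off k b ∈ Q) ∨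
    (∃ S : Finset (Fin 4), 3 ≤ S.card ∧ ∀ k ∈ S, ∃ a, p + off k a ∈ Q) := by
  classical
  by_contra hcon
  push Not at hcon
  obtain ⟨hB, hC⟩ := hcon
  let S : Finset (Fin 4) := Finset.univ.filter (fun k => ∃ a, p + off k a ∈ Q)
  have hS : S.card < 3 := by
    by_contra h3
    push Not at h3
    obtain ⟨k, hk, hk2⟩ := hC S h3
    obtain ⟨a, ha⟩ := (Finset.mem_filter.mp hk).2
    exact hk2 a ha
  -- the set is contained in a line which does not contain `p`
  have key : ∃ t : Fin 13, inc t p = false ∧ ∀ q ∈ Q, inc t q = true := by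
    rcases Nat.lt_or_ge S.card 1 with h0 | h1
    · have hS0 : S = ∅ := Finset.card_eq_zero.mp (by omega)
      obtain ⟨t, ht⟩ := exists_off_line p
      refine ⟨t, ht, fun q hq => ?_⟩
      exfalso
      have hqp : q ≠ p := fun h => hp (h ▸ hq)
      obtain ⟨k, a, rfl⟩ := off_cover p q hqp
      have : k ∈ S := Finset.mem_filter.mpr ⟨Finset.mem_univ _, a, hq⟩
      rw [hS0] at this
      exact absurd this (Finset.notMem_empty _)
    · rcases Nat.lt_or_ge S.card 2 with h2 | h2
      · obtain ⟨k, hk⟩ := Finset.card_eq_one.mp (by omega : S.card = 1)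
        have hkS : k ∈ S := by rw [hk]; exact Finset.mem_singleton_self _
        obtain ⟨a, ha⟩ := (Finset.mem_filter.mp hkS).2
        obtain ⟨t, ht1, ht2⟩ := off_line' k a p
        refine ⟨t, ht2, fun q hq => ?_⟩
        have hqp : q ≠ p := fun h => hp (h ▸ hq)
        obtain ⟨k', a', rfl⟩ := off_cover p q hqp
        have hk' : k' ∈ S := Finset.mem_filter.mpr ⟨Finset.mem_univ _, a', hq⟩
        rw [hk, Finset.mem_singleton] at hk'
        subst hk'
        by_cases haa : a = a'
        · rw [← haa]; exact ht1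
        · exact absurd hq (hB k' a a' haa ha)
      · obtain ⟨k, k', hkk, hk⟩ := Finset.card_eq_two.mp (by omega : S.card = 2)
        have hkS : k ∈ S := by rw [hk]; simp
        have hkS' : k' ∈ S := by rw [hk]; simp
        obtain ⟨a, ha⟩ := (Finset.mem_filter.mp hkS).2
        obtain ⟨a', ha'⟩ := (Finset.mem_filter.mp hkS').2
        obtain ⟨t, ht1, ht2, ht3⟩ := off_line k a k' a' hkk p
        refine ⟨t, ht3, fun q hq => ?_⟩
        have hqp : q ≠ p := fun h => hp (h ▸ hq)
        obtain ⟨k'', a'', rfl⟩ := off_cover p q hqp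
        have hk'' : k'' ∈ S := Finset.mem_filter.mpr ⟨Finset.mem_univ _, a'', hq⟩
        rw [hk, Finset.mem_insert, Finset.mem_singleton] at hk''
        rcases hk'' with rfl | rfl
        · by_cases haa : a = a''
          · rw [← haa]; exact ht1
          · exact absurd hq (hB k'' a a'' haa ha)
        · by_cases haa : a' = a''
          · rw [← haa]; exact ht2
          · exact absurd hq (hB k'' a' a'' haa ha')
  obtain ⟨t, ht, hQ⟩ := key
  obtain ⟨q, hq, hq2⟩ := h t ht
  rw [hQ q hq] at hq2
  exact absurd hq2 (by decide)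

/-- the class of a vector -/
noncomputable def cls (v : Vec) : Fin 13 := by
  classical
  exact if h : v ≠ 0 then (exists_pt v h).choose else 0

theorem cls_spec {v : Vec} (h : v ≠ 0) : v = pts (cls v) ∨ v = -pts (cls v) := by
  have := (exists_pt v h).choose_spec
  simp only [cls]
  rw [dif_pos h]
  exact this

/-- the linear form -/
def form (φ : Vec) : Vec →ₗ[ZMod 3] ZMod 3 where
  toFun v := φ 0 * v 0 + φ 1 * v 1 + φ 2 * v 2
  map_add' v w := by simp only [Pi.add_apply]; ring
  map_smul' c v := by simp only [Pi.smul_apply, smul_eq_mul, RingHom.id_apply]; ring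

theorem form_cls {t : Fin 13} {φ : Vec}
    (hφ : ∀ i : Fin 13, (φ 0 * pts i 0 + φ 1 * pts i 1 + φ 2 * pts i 2 = 0) ↔ inc t i = true)
    {v : Vec} (hv : v ≠ 0) : form φ v = 0 ↔ inc t (cls v) = true := by
  rw [← hφ (cls v)]
  rcases cls_spec hv with h | h
  · have : form φ v = form φ (pts (cls v)) := by rw [← h]
    rw [this]; rfl
  · have : form φ v = - form φ (pts (cls v)) := by
      rw [← map_neg, ← h]
    rw [this, neg_eq_zero]; rfl

/-- If `v` is in the span of vectors in other classes then for every line which does not contain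
its class one of these vectors is not on the line. -/
theorem span_line {ι : Type*} {g : ι → Vec} (hg : ∀ j, g j ≠ 0) {v : Vec} (hv : v ≠ 0)
    {R : Finset ι} (h : v ∈ Submodule.span (ZMod 3) (g '' (R : Set ι))) (t : Fin 13)
    (ht : inc t (cls v) = false) : ∃ j ∈ R, inc t (cls (g j)) = false := by
  by_contra hcon
  push Not at hcon
  obtain ⟨φ, hφ0, hφ⟩ := exists_eq t
  have h1 : Submodule.span (ZMod 3) (g '' (R : Set ι)) ≤ LinearMap.ker (form φ) := by
    rw [Submodule.span_le]
    rintro _ ⟨j, hj, rfl⟩
    have h2 : inc t (cls (g j)) = true := eq_true_of_ne_false (hcon j hj)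
    exact (form_cls hφ (hg j)).mpr h2
  have h3 := (form_cls hφ hv).mp (h1 h)
  rw [ht] at h3
  exact absurd h3 (by decide)

end Pool.Agent.R560.ASP
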